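import Pool.Agent.Run7.h896.CF.Core

/-! The estimate in the Hilbert space of an invariant functional. -/

set_option autoImplicit false

open Finset
open scoped InnerProductSpace

namespace Run7.h896.RE

variable {K : Type} [NormedAddCommGroup K] [InnerProductSpace ℂ K] [CompleteSpace K]

omit [CompleteSpace K] in
theorem sq_sum_le {ι : Type*} (s : Finset ι) (f : ι → K) :
    ‖∑ j ∈ s, f j‖ ^ 2 ≤ s.card * ∑ j ∈ s, ‖f j‖ ^ 2 := by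
  calc ‖∑ j ∈ s, f j‖ ^ 2 ≤ (∑ j ∈ s, ‖f j‖) ^ 2 := by
        gcongr
        exact norm_sum_le _ _
    _ ≤ _ := sq_sum_le_card_mul_sum_sq

omit [CompleteSpace K] in
theorem sq_add_le' (a b : K) : ‖a + b‖ ^ 2 ≤ 2 * ‖a‖ ^ 2 + 2 * ‖b‖ ^ 2 := by
  have h1 := norm_add_le a b
  have h2 : ‖a + b‖ ^ 2 ≤ (‖a‖ + ‖b‖) ^ 2 := by gcongr
  nlinarith [sq_nonneg (‖a‖ - ‖b‖)]

omit [CompleteSpace K] in
theorem norm_iter (U : K →ₗᵢ[ℂ] K) (i : ℕ) (v : K) : ‖(⇑U)^[i] v‖ = ‖v‖ := by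
  induction i with
  | zero => rfl
  | succ i ih => rw [Function.iterate_succ_apply', LinearIsometry.norm_map, ih]

omit [CompleteSpace K] in
theorem iter_add (U : K →ₗᵢ[ℂ] K) (i : ℕ) (v w : K) : (⇑U)^[i] (v + w) = (⇑U)^[i] v + (⇑U)^[i] w := by
  induction i with
  | zero => rfl
  | succ i ih => rw [Function.iterate_succ_apply', ih, map_add, Function.iterate_succ_apply' (⇑U) i v,
      Function.iterate_succ_apply' (⇑U) i w]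

omit [CompleteSpace K] in
theorem iter_zero (U : K →ₗᵢ[ℂ] K) (i : ℕ) : (⇑U)^[i] (0 : K) = 0 := by
  induction i with
  | zero => rfl
  | succ i ih => rw [Function.iterate_succ_apply', ih, map_zero]

omit [CompleteSpace K] in
theorem iter_sum {ι : Type*} (U : K →ₗᵢ[ℂ] K) (i : ℕ) (s : Finset ι) (f : ι → K) :
    (⇑U)^[i] (∑ j ∈ s, f j) = ∑ j ∈ s, (⇑U)^[i] (f j) := by
  classical
  induction s using Finset.induction_on with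
  | empty => rw [sum_empty, sum_empty, iter_zero]
  | insert a s ha ih => rw [sum_insert ha, sum_insert ha, iter_add, ih]

omit [CompleteSpace K] in
/-- the main estimate -/
theorem est {κ ι : Type*} (P : Finset κ) (R : κ → (K →L[ℂ] K)) (hR : ∀ v, ∑ c ∈ P, ‖R c v‖ ^ 2 = ‖v‖ ^ 2)
    (W : ℕ) (cf : κ → ℕ → ℂ) (hcf : ∀ c ∈ P, ∀ i, ‖cf c i‖ ≤ 1) (U : K →ₗᵢ[ℂ] K)
    (s : Finset ι) (y w : ι → K) (Z : ι → (K →L[ℂ] K)) (hZ : ∀ j ∈ s, ∀ n, (⇑U)^[n] (y j) = (Z j ^ n) (y j))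
    (hZ1 : ∀ j ∈ s, ‖Z j‖ ≤ 1) (hRZ : ∀ c ∈ P, ∀ j ∈ s, R c * Z j = Z j * R c) (v : K) :
    ∑ c ∈ P, ‖R c (∑ i ∈ range W, cf c i • (⇑U)^[i] v)‖ ^ 2 ≤
      2 * s.card * ∑ j ∈ s, (2 * ∑ c ∈ P, ‖∑ i ∈ range W, cf c i • Z j ^ i‖ ^ 2 * ‖R c (w j)‖ ^ 2 +
        2 * W ^ 2 * ‖y j - w j‖ ^ 2) + 2 * W ^ 2 * ‖v - ∑ j ∈ s, y j‖ ^ 2 := by
  obtain ⟨e, he⟩ : ∃ e, e = v - ∑ j ∈ s, y j := ⟨_, rfl⟩
  have hv : v = ∑ j ∈ s, y j + e := by rw [he]; abel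
  rw [← he]
  -- the pieces
  have hpow : ∀ j ∈ s, ∀ n, ‖Z j ^ n‖ ≤ 1 := by
    intro j hj n
    induction n with
    | zero => rw [pow_zero]; exact ContinuousLinearMap.norm_id_le
    | succ n ih =>
      rw [pow_succ]
      exact (norm_mul_le _ _).trans (mul_le_one₀ ih (norm_nonneg _) (hZ1 j hj))
  have hM : ∀ c ∈ P, ∀ j ∈ s, ‖∑ i ∈ range W, cf c i • Z j ^ i‖ ≤ W := by
    intro c hc j hj
    refine (norm_sum_le _ _).trans ?_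
    calc ∑ i ∈ range W, ‖cf c i • Z j ^ i‖ ≤ ∑ _i ∈ range W, (1 : ℝ) := by
          refine sum_le_sum fun i _ => ?_
          rw [norm_smul]
          exact mul_le_one₀ (hcf c hc i) (norm_nonneg _) (hpow j hj i)
      _ = W := by simp
  have hRp : ∀ c ∈ P, ∀ j ∈ s, ∀ n, R c * Z j ^ n = Z j ^ n * R c := by
    intro c hc j hj n
    have h1 : Commute (R c) (Z j) := hRZ c hc j hj
    exact (h1.pow_right n).eq
  have h1 : ∀ c ∈ P, ∀ j ∈ s, ‖R c (∑ i ∈ range W, cf c i • (⇑U)^[i] (y j))‖ ^ 2 ≤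
      2 * (‖∑ i ∈ range W, cf c i • Z j ^ i‖ ^ 2 * ‖R c (w j)‖ ^ 2) + 2 * W ^ 2 * ‖R c (y j - w j)‖ ^ 2 := by
    intro c hc j hj
    obtain ⟨Q, hQ⟩ : ∃ Q : K →L[ℂ] K, Q = ∑ i ∈ range W, cf c i • Z j ^ i := ⟨_, rfl⟩
    have e1 : R c (∑ i ∈ range W, cf c i • (⇑U)^[i] (y j)) = Q (R c (y j)) := by
      rw [map_sum, hQ, _root_.sum_apply]
      refine sum_congr rfl fun i _ => ?_
      rw [hZ j hj, map_smul, smul_apply]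
      congr 1
      exact DFunLike.congr_fun (hRp c hc j hj i) (y j)
    have hQW : ‖Q‖ ≤ W := by rw [hQ]; exact hM c hc j hj
    rw [e1, ← hQ]
    have e2 : R c (y j) = R c (w j) + R c (y j - w j) := by rw [← map_add, add_sub_cancel]
    calc ‖Q (R c (y j))‖ ^ 2 ≤ (‖Q‖ * ‖R c (y j)‖) ^ 2 := by
          gcongr
          exact Q.le_opNorm _
      _ = ‖Q‖ ^ 2 * ‖R c (y j)‖ ^ 2 := mul_pow _ _ _
      _ ≤ ‖Q‖ ^ 2 * (2 * ‖R c (w j)‖ ^ 2 + 2 * ‖R c (y j - w j)‖ ^ 2) := by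
          rw [e2]
          gcongr
          exact sq_add_le' _ _
      _ = 2 * (‖Q‖ ^ 2 * ‖R c (w j)‖ ^ 2) + 2 * ‖Q‖ ^ 2 * ‖R c (y j - w j)‖ ^ 2 := by ring
      _ ≤ _ := by gcongr
  have h2 : ∀ c ∈ P, ‖R c (∑ i ∈ range W, cf c i • (⇑U)^[i] e)‖ ^ 2 ≤
      W * ∑ i ∈ range W, ‖R c ((⇑U)^[i] e)‖ ^ 2 := by
    intro c hc
    rw [map_sum]
    refine (sq_sum_le _ _).trans ?_
    rw [card_range]
    gcongr with i _
    rw [map_smul, norm_smul]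
    exact mul_le_of_le_one_left (norm_nonneg _) (hcf c hc i)
  have h3 : ∀ c ∈ P, ‖R c (∑ i ∈ range W, cf c i • (⇑U)^[i] v)‖ ^ 2 ≤
      2 * (s.card * ∑ j ∈ s, (2 * (‖∑ i ∈ range W, cf c i • Z j ^ i‖ ^ 2 * ‖R c (w j)‖ ^ 2) +
        2 * W ^ 2 * ‖R c (y j - w j)‖ ^ 2)) + 2 * (W * ∑ i ∈ range W, ‖R c ((⇑U)^[i] e)‖ ^ 2) := by
    intro c hc
    have e1 : ∑ i ∈ range W, cf c i • (⇑U)^[i] v =
        ∑ j ∈ s, ∑ i ∈ range W, cf c i • (⇑U)^[i] (y j) + ∑ i ∈ range W, cf c i • (⇑U)^[i] e := by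
      rw [sum_comm, ← sum_add_distrib]
      refine sum_congr rfl fun i _ => ?_
      rw [hv, iter_add, iter_sum, smul_add, smul_sum]
    rw [e1, map_add, map_sum]
    refine (sq_add_le' _ _).trans ?_
    have h4 := sq_sum_le s fun j => R c (∑ i ∈ range W, cf c i • (⇑U)^[i] (y j))
    have h5 : ∑ j ∈ s, ‖R c (∑ i ∈ range W, cf c i • (⇑U)^[i] (y j))‖ ^ 2 ≤
        ∑ j ∈ s, (2 * (‖∑ i ∈ range W, cf c i • Z j ^ i‖ ^ 2 * ‖R c (w j)‖ ^ 2) +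
        2 * W ^ 2 * ‖R c (y j - w j)‖ ^ 2) := sum_le_sum fun j hj => h1 c hc j hj
    have h6 := h2 c hc
    have h7 : (s.card : ℝ) * ∑ j ∈ s, ‖R c (∑ i ∈ range W, cf c i • (⇑U)^[i] (y j))‖ ^ 2 ≤ s.card *
        ∑ j ∈ s, (2 * (‖∑ i ∈ range W, cf c i • Z j ^ i‖ ^ 2 * ‖R c (w j)‖ ^ 2) +
        2 * W ^ 2 * ‖R c (y j - w j)‖ ^ 2) := mul_le_mul_of_nonneg_left h5 (Nat.cast_nonneg _)
    linarith
  refine (sum_le_sum h3).trans (le_of_eq ?_)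
  rw [sum_add_distrib, ← mul_sum, ← mul_sum, ← mul_sum, ← mul_sum, sum_comm, sum_comm (s := P)]
  have e2 : ∑ i ∈ range W, ∑ c ∈ P, ‖R c ((⇑U)^[i] e)‖ ^ 2 = W * ‖e‖ ^ 2 := by
    have : ∀ i ∈ range W, ∑ c ∈ P, ‖R c ((⇑U)^[i] e)‖ ^ 2 = ‖e‖ ^ 2 := fun i _ => by
      rw [hR, norm_iter]
    rw [sum_congr rfl this, sum_const, card_range, nsmul_eq_mul]
  rw [e2]
  have e3 : ∑ j ∈ s, ∑ c ∈ P, (2 * (‖∑ i ∈ range W, cf c i • Z j ^ i‖ ^ 2 * ‖R c (w j)‖ ^ 2) +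
      2 * W ^ 2 * ‖R c (y j - w j)‖ ^ 2) = ∑ j ∈ s, (2 * ∑ c ∈ P,
      ‖∑ i ∈ range W, cf c i • Z j ^ i‖ ^ 2 * ‖R c (w j)‖ ^ 2 + 2 * W ^ 2 * ‖y j - w j‖ ^ 2) := by
    refine sum_congr rfl fun j _ => ?_
    rw [sum_add_distrib, ← mul_sum, ← mul_sum, hR]
  rw [e3]
  ring

end Run7.h896.RE
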