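import Pool.Agent.Run7.h896.RE.Gns
import Pool.Agent.Run7.h896.RE.Hilb
import Pool.Agent.R296.SM.NormU

/-! Limit functionals of averages over windows. -/

set_option autoImplicit false

open Finset Filter Topology
open scoped InnerProductSpace ComplexOrder

namespace Run7.h896.RE

/-- averages over windows -/
noncomputable def AvR (f : ℕ → ℕ → ℝ) (N H : ℕ) : ℝ :=
  (∑ n ∈ range N, ∑ m ∈ Ioc n (n + H), f n m) / ((N : ℝ) * H)

/-- averages over windows, complex -/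
noncomputable def AvC (f : ℕ → ℕ → ℂ) (N H : ℕ) : ℂ :=
  (∑ n ∈ range N, ∑ m ∈ Ioc n (n + H), f n m) / ((N : ℂ) * H)

theorem AvC_add (f g : ℕ → ℕ → ℂ) (N H : ℕ) :
    AvC (fun n m => f n m + g n m) N H = AvC f N H + AvC g N H := by
  rw [AvC, AvC, AvC, ← add_div]
  congr 1
  simp only [sum_add_distrib]

theorem AvC_smul (c : ℂ) (f : ℕ → ℕ → ℂ) (N H : ℕ) :
    AvC (fun n m => c * f n m) N H = c * AvC f N H := by
  rw [AvC, AvC, mul_div_assoc']
  congr 1
  simp only [mul_sum]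

theorem AvC_ofReal (f : ℕ → ℕ → ℝ) (N H : ℕ) :
    AvC (fun n m => ((f n m : ℝ) : ℂ)) N H = ((AvR f N H : ℝ) : ℂ) := by
  rw [AvC, AvR]; push_cast; rfl

theorem AvC_le {f : ℕ → ℕ → ℂ} {B : ℝ} (hB : 0 ≤ B) (hf : ∀ n m, ‖f n m‖ ≤ B) (N H : ℕ) :
    ‖AvC f N H‖ ≤ B := by
  rw [AvC, norm_div, norm_mul, Complex.norm_natCast, Complex.norm_natCast]
  refine div_le_of_le_mul₀ (by positivity) hB ?_
  refine (norm_sum_le _ _).trans ?_
  calc ∑ n ∈ range N, ‖∑ m ∈ Ioc n (n + H), f n m‖ ≤ ∑ _n ∈ range N, (H * B : ℝ) := by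
        refine sum_le_sum fun n _ => (norm_sum_le _ _).trans ?_
        refine (sum_le_sum fun m _ => hf n m).trans (le_of_eq ?_)
        rw [sum_const, Nat.card_Ioc, Nat.add_sub_cancel_left, nsmul_eq_mul]
    _ = B * (N * H) := by rw [sum_const, card_range, nsmul_eq_mul]; ring

theorem AvR_mono {f g : ℕ → ℕ → ℝ} (h : ∀ n m, f n m ≤ g n m) (N H : ℕ) : AvR f N H ≤ AvR g N H := by
  rw [AvR, AvR]
  gcongr
  exact h _ _

theorem AvR_nonneg {f : ℕ → ℕ → ℝ} (h : ∀ n m, 0 ≤ f n m) (N H : ℕ) : 0 ≤ AvR f N H := by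
  rw [AvR]
  exact div_nonneg (sum_nonneg fun n _ => sum_nonneg fun m _ => h n m) (by positivity)

theorem AvR_sum {ι : Type*} (s : Finset ι) (f : ι → ℕ → ℕ → ℝ) (N H : ℕ) :
    AvR (fun n m => ∑ c ∈ s, f c n m) N H = ∑ c ∈ s, AvR (f c) N H := by
  unfold AvR
  rw [← sum_div]
  congr 1
  rw [sum_congr rfl fun n _ => sum_comm, sum_comm]

theorem AvR_mul (c : ℝ) (f : ℕ → ℕ → ℝ) (N H : ℕ) :
    AvR (fun n m => c * f n m) N H = c * AvR f N H := by
  rw [AvR, AvR, mul_div_assoc']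
  congr 1
  simp only [mul_sum]

theorem AvR_sq {f : ℕ → ℕ → ℝ} (N H : ℕ) : AvR f N H ^ 2 ≤ AvR (fun n m => f n m ^ 2) N H := by
  rcases Nat.eq_zero_or_pos (N * H) with h0 | h0
  · have : (N : ℝ) * H = 0 := by exact_mod_cast h0
    rw [AvR, AvR, this, div_zero, div_zero]
    norm_num
  have hp : (0 : ℝ) < (N : ℝ) * H := by exact_mod_cast h0
  rw [AvR, AvR, div_pow, div_le_div_iff₀ (by positivity) hp, sum_sigma', sum_sigma']
  have h1 := sq_sum_le_card_mul_sum_sq (s := (range N).sigma fun n => Ioc n (n + H))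
    (f := fun p : (_ : ℕ) × ℕ => f p.1 p.2)
  have h2 : (((range N).sigma fun n => Ioc n (n + H)).card : ℝ) = (N : ℝ) * H := by
    rw [card_sigma]
    simp
  rw [h2] at h1
  nlinarith

/-- ultrafilter limits of bounded sequences -/
theorem exists_ulim (𝒱 : Ultrafilter ℕ) (u : ℕ → ℂ) (C : ℝ) (hu : ∀ k, ‖u k‖ ≤ C) :
    ∃ l : ℂ, Tendsto u 𝒱 (𝓝 l) := by
  have h1 : IsCompact (Metric.closedBall (0 : ℂ) C) := isCompact_closedBall 0 C
  obtain ⟨l, -, hl⟩ := h1.ultrafilter_le_nhds (𝒱.map u) (by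
    rw [Filter.le_principal_iff]
    have h2 : ∀ᶠ k in (𝒱 : Filter ℕ), u k ∈ Metric.closedBall (0 : ℂ) C :=
      Filter.Eventually.of_forall fun k => by simpa using hu k
    exact h2)
  exact ⟨l, hl⟩

section fnl

variable {A : Type} [CStarAlgebra A] (α : A →⋆ₐ[ℂ] A)
variable {K : Type} [NormedAddCommGroup K] [InnerProductSpace ℂ K] [CompleteSpace K]

theorem it_add (n : ℕ) (x y : A) : (⇑α)^[n] (x + y) = (⇑α)^[n] x + (⇑α)^[n] y := by
  induction n with
  | zero => rfl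
  | succ n ih => rw [Function.iterate_succ_apply', ih, map_add, Function.iterate_succ_apply' (⇑α) n x,
      Function.iterate_succ_apply' (⇑α) n y]

theorem it_smul (n : ℕ) (c : ℂ) (x : A) : (⇑α)^[n] (c • x) = c • (⇑α)^[n] x := by
  induction n with
  | zero => rfl
  | succ n ih => rw [Function.iterate_succ_apply', ih, map_smul, Function.iterate_succ_apply' (⇑α) n x]

theorem it_mul (n : ℕ) (x y : A) : (⇑α)^[n] (x * y) = (⇑α)^[n] x * (⇑α)^[n] y := by
  induction n with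
  | zero => rfl
  | succ n ih => rw [Function.iterate_succ_apply', ih, map_mul, Function.iterate_succ_apply' (⇑α) n x,
      Function.iterate_succ_apply' (⇑α) n y]

theorem it_star (n : ℕ) (x : A) : (⇑α)^[n] (star x) = star ((⇑α)^[n] x) := by
  induction n with
  | zero => rfl
  | succ n ih => rw [Function.iterate_succ_apply', ih, map_star, Function.iterate_succ_apply' (⇑α) n x]

theorem it_one (n : ℕ) : (⇑α)^[n] (1 : A) = 1 := by
  induction n with
  | zero => rfl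
  | succ n ih => rw [Function.iterate_succ_apply', ih, map_one]

theorem it_norm (n : ℕ) (x : A) : ‖(⇑α)^[n] x‖ ≤ ‖x‖ := by
  induction n with
  | zero => exact le_rfl
  | succ n ih =>
    rw [Function.iterate_succ_apply']
    exact (NonUnitalStarAlgHom.norm_apply_le α _).trans ih

theorem it_sum {ι : Type*} (n : ℕ) (s : Finset ι) (f : ι → A) :
    (⇑α)^[n] (∑ j ∈ s, f j) = ∑ j ∈ s, (⇑α)^[n] (f j) := by
  classical
  induction s using Finset.induction_on with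
  | empty =>
    have := it_smul α n 0 0
    rw [zero_smul, zero_smul] at this
    rw [sum_empty, sum_empty, this]
  | insert a s ha ih => rw [sum_insert ha, sum_insert ha, it_add, ih]

variable (π : A →⋆ₙₐ[ℂ] (K →L[ℂ] K))

/-- the averaged functionals -/
noncomputable def Ph (η : ℕ → K) (N H : ℕ) (g : ℕ → ℝ) (a : A) : ℂ :=
  AvC (fun n m => (g m : ℂ) * ⟪η n, π ((⇑α)^[m] a) (η n)⟫_ℂ) N H

theorem ph_sq (η : ℕ → K) (N H : ℕ) (g : ℕ → ℝ) (b : A) :
    Ph α π η N H g (star b * b) = ((AvR (fun n m => g m * ‖π ((⇑α)^[m] b) (η n)‖ ^ 2) N H : ℝ) : ℂ) := by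
  rw [Ph, ← AvC_ofReal]
  congr 1
  funext n m
  have e1 : ⟪η n, π ((⇑α)^[m] (star b * b)) (η n)⟫_ℂ = ((‖π ((⇑α)^[m] b) (η n)‖ ^ 2 : ℝ) : ℂ) := by
    rw [it_mul, it_star, map_mul, map_star, mul_apply_eq_comp, ContinuousLinearMap.star_eq_adjoint,
      ContinuousLinearMap.adjoint_inner_right, inner_self_eq_norm_sq_to_K]
    push_cast
    rfl
  rw [e1]
  push_cast
  rfl

theorem term_le {η : ℕ → K} (hη : ∀ n, ‖η n‖ ≤ 1) {g : ℕ → ℝ} (hg : ∀ m, 0 ≤ g m ∧ g m ≤ 1) (a : A)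
    (n m : ℕ) : ‖(g m : ℂ) * ⟪η n, π ((⇑α)^[m] a) (η n)⟫_ℂ‖ ≤ ‖a‖ := by
  rw [norm_mul, Complex.norm_real, Real.norm_of_nonneg (hg m).1]
  calc g m * ‖⟪η n, π ((⇑α)^[m] a) (η n)⟫_ℂ‖ ≤ 1 * (1 * (‖a‖ * 1)) := by
        gcongr
        · exact (hg m).2
        · refine (norm_inner_le_norm _ _).trans ?_
          gcongr
          · exact hη n
          · refine (ContinuousLinearMap.le_opNorm _ _).trans ?_
            gcongr
            · exact (NonUnitalStarAlgHom.norm_apply_le π _).trans (it_norm α m a)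
            · exact hη n
    _ = ‖a‖ := by ring

variable [PartialOrder A] [StarOrderedRing A]

/-- **limit functionals** -/
theorem exists_lim (𝒱 : Ultrafilter ℕ) {η : ℕ → ℕ → K} (hη : ∀ k n, ‖η k n‖ ≤ 1) (N H : ℕ → ℕ)
    {g : ℕ → ℝ} (hg : ∀ m, 0 ≤ g m ∧ g m ≤ 1) :
    ∃ ψ : A →ₚ[ℂ] ℂ, ∀ a, Tendsto (fun k => Ph α π (η k) (N k) (H k) g a) 𝒱 (𝓝 (ψ a)) := by
  choose l hl using fun a : A => exists_ulim 𝒱 (fun k => Ph α π (η k) (N k) (H k) g a) ‖a‖
    (fun k => AvC_le (norm_nonneg _) (term_le α π (hη k) hg a) _ _)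
  have hadd : ∀ b c, l (b + c) = l b + l c := by
    intro b c
    refine tendsto_nhds_unique (hl (b + c)) (((hl b).add (hl c)).congr fun k => ?_)
    rw [Ph, Ph, Ph, ← AvC_add]
    congr 1
    funext n m
    rw [it_add, map_add, add_apply, inner_add_right, mul_add]
  have hsmul : ∀ (t : ℂ) c, l (t • c) = t * l c := by
    intro t c
    refine tendsto_nhds_unique (hl (t • c)) (((hl c).const_mul t).congr fun k => ?_)
    rw [Ph, Ph, ← AvC_smul]
    congr 1
    funext n m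
    rw [it_smul, map_smul, smul_apply, inner_smul_right]
    ring
  let l₀ : A →ₗ[ℂ] ℂ := { toFun := l, map_add' := hadd, map_smul' := fun t c => by simpa using hsmul t c }
  refine ⟨PositiveLinearMap.mk₀ l₀ ?_, fun a => hl a⟩
  intro x hx
  obtain ⟨b, rfl⟩ := (CStarAlgebra.nonneg_iff_eq_star_mul_self).1 hx
  show 0 ≤ l (star b * b)
  refine ge_of_tendsto (hl (star b * b)) (Eventually.of_forall fun k => ?_)
  show 0 ≤ Ph α π (η k) (N k) (H k) g (star b * b)
  rw [ph_sq, Complex.zero_le_real]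
  exact AvR_nonneg (fun n m => mul_nonneg (hg m).1 (sq_nonneg _)) _ _

/-- the norm in the GNS space as a limit -/
theorem lim_norm {𝒱 : Ultrafilter ℕ} {η : ℕ → ℕ → K} {N H : ℕ → ℕ} {g : ℕ → ℝ} {ψ : A →ₚ[ℂ] ℂ}
    (h : ∀ a, Tendsto (fun k => Ph α π (η k) (N k) (H k) g a) 𝒱 (𝓝 (ψ a))) (b : A) :
    Tendsto (fun k => AvR (fun n m => g m * ‖π ((⇑α)^[m] b) (η k n)‖ ^ 2) (N k) (H k)) 𝒱
      (𝓝 (‖io ψ b‖ ^ 2)) := by
  have h1 := h (star b * b)
  rw [← io_norm] at h1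
  simp only [ph_sq] at h1
  have h2 := (Complex.continuous_re.tendsto _).comp h1
  rw [Complex.ofReal_re] at h2
  exact h2.congr fun k => Complex.ofReal_re _

end fnl

end Run7.h896.RE
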