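import Pool.Agent.W661.Nrm12
import Pool.Agent.W661.Nrm13

/-! Invariant functionals, dominated functionals and their operators on the GNS space. -/

set_option autoImplicit false

open Finset
open scoped InnerProductSpace ComplexOrder
open ContinuousLinearMap

namespace Run7.h896.RE

open Pool.Agent.W661.Nrm

variable {A : Type} [CStarAlgebra A] [PartialOrder A] [StarOrderedRing A]

theorem inner_gns (φ : A →ₚ[ℂ] ℂ) (a b : A) :
    ⟪φ.gnsStarAlgHom a (om φ), φ.gnsStarAlgHom b (om φ)⟫_ℂ = φ (star a * b) := by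
  rw [pi_inner, ← mul_apply_eq_comp, ← map_mul, gns_inner]

/-- the linear map `a ↦ π(a) ξ` -/
noncomputable def io (φ : A →ₚ[ℂ] ℂ) : A →ₗ[ℂ] φ.GNS where
  toFun a := φ.gnsStarAlgHom a (om φ)
  map_add' a b := by rw [map_add, add_apply]
  map_smul' c a := by rw [map_smul, smul_apply, RingHom.id_apply]

theorem io_apply (φ : A →ₚ[ℂ] ℂ) (a : A) : io φ a = φ.gnsStarAlgHom a (om φ) := rfl

theorem io_dense (φ : A →ₚ[ℂ] ℂ) : DenseRange (io φ) := gns_dense φ

theorem io_norm (φ : A →ₚ[ℂ] ℂ) (a : A) : ((‖io φ a‖ ^ 2 : ℝ) : ℂ) = φ (star a * a) := by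
  rw [← inner_gns, ← io_apply, inner_self_eq_norm_sq_to_K]
  push_cast
  rfl

/-- the isometry of an invariant functional -/
theorem exists_U (φ : A →ₚ[ℂ] ℂ) (α : A →⋆ₐ[ℂ] A) (hφ : ∀ a, φ (α a) = φ a) :
    ∃ U : φ.GNS →ₗᵢ[ℂ] φ.GNS, (∀ a η, U (φ.gnsStarAlgHom a η) = φ.gnsStarAlgHom (α a) (U η)) ∧
      U (om φ) = om φ := by
  set f : A →ₗ[ℂ] φ.GNS := (io φ).comp α.toAlgHom.toLinearMap with hf
  have hfa : ∀ a, f a = io φ (α a) := fun a => rfl
  have hin : ∀ a b, ⟪f a, f b⟫_ℂ = ⟪io φ a, io φ b⟫_ℂ := by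
    intro a b
    rw [hfa, hfa, io_apply, io_apply, io_apply, io_apply, inner_gns, inner_gns, ← map_star, ← map_mul, hφ]
  have hnorm : ∀ a, ‖f a‖ = ‖io φ a‖ := by
    intro a
    have h1 := hin a a
    rw [inner_self_eq_norm_sq_to_K, inner_self_eq_norm_sq_to_K] at h1
    have h2 : ‖f a‖ ^ 2 = ‖io φ a‖ ^ 2 := by exact_mod_cast h1
    exact (sq_eq_sq₀ (norm_nonneg _) (norm_nonneg _)).1 h2
  have hde := io_dense φ
  set V : φ.GNS →L[ℂ] φ.GNS := f.extendOfNorm (io φ) with hV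
  have hVe : ∀ a, V (io φ a) = io φ (α a) := fun a =>
    LinearMap.extendOfNorm_eq hde ⟨1, fun x => by rw [one_mul, hnorm]⟩ a
  have hVn : ∀ x, ‖V x‖ = ‖x‖ := by
    intro x
    refine hde.induction_on (p := fun x => ‖V x‖ = ‖x‖) x ?_ ?_
    · exact isClosed_eq (by fun_prop) (by fun_prop)
    · intro a
      rw [hVe]
      exact hnorm a
  refine ⟨⟨V.toLinearMap, hVn⟩, fun a η => ?_, ?_⟩
  · show V (φ.gnsStarAlgHom a η) = φ.gnsStarAlgHom (α a) (V η)
    refine hde.induction_on (p := fun x => V (φ.gnsStarAlgHom a x) = φ.gnsStarAlgHom (α a) (V x)) η ?_ ?_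
    · exact isClosed_eq (by fun_prop) (by fun_prop)
    · intro b
      have h1 : φ.gnsStarAlgHom a (io φ b) = io φ (a * b) := by
        rw [io_apply, io_apply, ← mul_apply_eq_comp, ← map_mul]
      rw [h1, hVe, hVe, map_mul, io_apply, io_apply, map_mul, mul_apply_eq_comp]
  · show V (om φ) = om φ
    have h1 : om φ = io φ 1 := by rw [io_apply, map_one]; rfl
    rw [h1, hVe, map_one]

/-- the operator of a dominated functional -/
theorem exists_S (φ ψ : A →ₚ[ℂ] ℂ) (h : ∀ a, ‖io ψ a‖ ≤ ‖io φ a‖) :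
    ∃ R : φ.GNS →L[ℂ] φ.GNS, (∀ a, R * φ.gnsStarAlgHom a = φ.gnsStarAlgHom a * R) ∧
      ∀ a, ‖R (io φ a)‖ = ‖io ψ a‖ := by
  have hde := io_dense φ
  set S : φ.GNS →L[ℂ] ψ.GNS := (io ψ).extendOfNorm (io φ) with hS
  have hSe : ∀ a, S (io φ a) = io ψ a := fun a =>
    LinearMap.extendOfNorm_eq hde ⟨1, fun x => by rw [one_mul]; exact h x⟩ a
  have hSπ : ∀ a x, S (φ.gnsStarAlgHom a x) = ψ.gnsStarAlgHom a (S x) := by
    intro a x
    refine hde.induction_on (p := fun x => S (φ.gnsStarAlgHom a x) = ψ.gnsStarAlgHom a (S x)) x ?_ ?_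
    · exact isClosed_eq (by fun_prop) (by fun_prop)
    · intro b
      have h1 : φ.gnsStarAlgHom a (io φ b) = io φ (a * b) := by
        rw [io_apply, io_apply, ← mul_apply_eq_comp, ← map_mul]
      have h2 : ψ.gnsStarAlgHom a (io ψ b) = io ψ (a * b) := by
        rw [io_apply, io_apply, ← mul_apply_eq_comp, ← map_mul]
      rw [h1, hSe, hSe, h2]
  have hadj : ∀ a z, adjoint S (ψ.gnsStarAlgHom a z) = φ.gnsStarAlgHom a (adjoint S z) := by
    intro a z
    apply ext_inner_right ℂ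
    intro y
    rw [adjoint_inner_left, pi_inner, pi_inner, adjoint_inner_left, hSπ]
  set T : φ.GNS →L[ℂ] φ.GNS := (adjoint S).comp S with hT
  have hTπ : ∀ a, T * φ.gnsStarAlgHom a = φ.gnsStarAlgHom a * T := by
    intro a
    ext x
    show adjoint S (S (φ.gnsStarAlgHom a x)) = φ.gnsStarAlgHom a (adjoint S (S x))
    rw [hSπ, hadj]
  have hT0 : 0 ≤ T := by
    rw [nonneg_iff_isPositive]
    exact ContinuousLinearMap.isPositive_adjoint_comp_self S
  set R : φ.GNS →L[ℂ] φ.GNS := CFC.sqrt T with hR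
  have hRR : R * R = T := CFC.sqrt_mul_sqrt_self T hT0
  have hR0 : 0 ≤ R := CFC.sqrt_nonneg T
  have hRs : IsSelfAdjoint R := IsSelfAdjoint.of_nonneg hR0
  refine ⟨R, fun a => ?_, fun a => ?_⟩
  · have h1 : Commute T (φ.gnsStarAlgHom a) := hTπ a
    have h2 : Commute (CFC.sqrt T) (φ.gnsStarAlgHom a) := by
      unfold CFC.sqrt
      exact h1.cfcₙ_nnreal _
    exact h2
  · have h1 : ((‖R (io φ a)‖ ^ 2 : ℝ) : ℂ) = ((‖S (io φ a)‖ ^ 2 : ℝ) : ℂ) := by
      have e1 : ((‖R (io φ a)‖ ^ 2 : ℝ) : ℂ) = ⟪R (io φ a), R (io φ a)⟫_ℂ := by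
        rw [inner_self_eq_norm_sq_to_K]; push_cast; rfl
      have e2 : ((‖S (io φ a)‖ ^ 2 : ℝ) : ℂ) = ⟪S (io φ a), S (io φ a)⟫_ℂ := by
        rw [inner_self_eq_norm_sq_to_K]; push_cast; rfl
      rw [e1, e2, ← adjoint_inner_right, ← adjoint_inner_right]
      congr 1
      have h3 : adjoint R = R := by
        rw [← star_eq_adjoint]; exact hRs.star_eq
      rw [h3]
      exact DFunLike.congr_fun hRR (io φ a)
    have h2 : ‖R (io φ a)‖ ^ 2 = ‖S (io φ a)‖ ^ 2 := by exact_mod_cast h1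
    rw [(sq_eq_sq₀ (norm_nonneg _) (norm_nonneg _)).1 h2, hSe]

end Run7.h896.RE
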