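import Pool.Agent.Run7.h896.RE.Avg

/-! The key estimate. -/

set_option autoImplicit false

open Finset Filter Topology MeasureTheory
open scoped InnerProductSpace ComplexOrder Pointwise

namespace Run7.h896.RE

open Pool.Agent.H807R2.Dav (ee norm_ee ee_add ee_int ee_pow ee_zero)
open Pool.Agent.W24.Katai (Mul1)
open Pool.Agent.TH823.MRS (ExpoSmall)
open Pool.Agent.W661.Nrm
open Run7.h896.CF (NullE null_window)

/-- windows of windows -/
theorem avr_shift {M : ℕ → ℝ} (hM : ∀ m, 0 ≤ M m) {N H : ℕ} (hN : 0 < N) (hH : 0 < H) :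
    AvR (fun _ m => M m) N H ≤ (∑ r ∈ range (N + H + 1), M r) / N := by
  have hN' : (0 : ℝ) < N := by exact_mod_cast hN
  have hH' : (0 : ℝ) < H := by exact_mod_cast hH
  have e1 : ∀ n, ∑ m ∈ Ioc n (n + H), M m = ∑ i ∈ range H, M (n + 1 + i) := by
    intro n
    have : Ioc n (n + H) = Ico (n + 1) (n + 1 + H) := by ext r; simp only [mem_Ioc, mem_Ico]; omega
    rw [this, sum_Ico_eq_sum_range, Nat.add_sub_cancel_left]
  have e2 : ∑ n ∈ range N, ∑ m ∈ Ioc n (n + H), M m ≤ H * ∑ r ∈ range (N + H + 1), M r := by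
    simp_rw [e1]
    rw [sum_comm]
    calc ∑ i ∈ range H, ∑ n ∈ range N, M (n + 1 + i) ≤ ∑ _i ∈ range H, ∑ r ∈ range (N + H + 1), M r := by
          refine sum_le_sum fun i hi => ?_
          rw [mem_range] at hi
          have e3 : ∑ n ∈ range N, M (n + 1 + i) = ∑ r ∈ (range N).image (fun n => n + 1 + i), M r := by
            rw [sum_image fun a _ b _ hab => by omega]
          rw [e3]
          refine sum_le_sum_of_subset_of_nonneg (fun r hr => ?_) fun r _ _ => hM r
          rw [mem_image] at hr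
          obtain ⟨n, hn, rfl⟩ := hr
          rw [mem_range] at hn ⊢
          omega
      _ = _ := by rw [sum_const, card_range, nsmul_eq_mul]
  rw [AvR, div_le_div_iff₀ (by positivity) hN']
  calc (∑ n ∈ range N, ∑ m ∈ Ioc n (n + H), M m) * N ≤ (H * ∑ r ∈ range (N + H + 1), M r) * N := by gcongr
    _ = _ := by ring

/-- telescoping -/
theorem tele (w : ℕ → ℂ) (n H : ℕ) :
    ∑ r ∈ Ioc n (n + H), (w (r + 1) - w r) = w (n + H + 1) - w (n + 1) := by
  induction H with
  | zero => simp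
  | succ H ih =>
    have e1 : Ioc n (n + (H + 1)) = insert (n + H + 1) (Ioc n (n + H)) := by
      ext r; simp only [mem_insert, mem_Ioc]; omega
    have e2 : n + H + 1 ∉ Ioc n (n + H) := by simp
    rw [e1, sum_insert e2, ih]
    have e3 : n + (H + 1) + 1 = n + H + 1 + 1 := by omega
    rw [e3]
    ring

section fnl

variable {A : Type} [CStarAlgebra A] (α : A →⋆ₐ[ℂ] A)
variable {K : Type} [NormedAddCommGroup K] [InnerProductSpace ℂ K] [CompleteSpace K]
variable (π : A →⋆ₙₐ[ℂ] (K →L[ℂ] K)) [PartialOrder A] [StarOrderedRing A]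

omit [StarOrderedRing A] in
/-- the limits are invariant -/
theorem lim_inv {𝒱 : Ultrafilter ℕ} {η : ℕ → ℕ → K} (hη : ∀ k n, ‖η k n‖ ≤ 1) {N H : ℕ → ℕ}
    (hH : Tendsto H 𝒱 atTop) {ψ : A →ₚ[ℂ] ℂ}
    (h : ∀ a, Tendsto (fun k => Ph α π (η k) (N k) (H k) (fun _ => 1) a) 𝒱 (𝓝 (ψ a))) (a : A) :
    ψ (α a) = ψ a := by
  have h1 : Tendsto (fun k => Ph α π (η k) (N k) (H k) (fun _ => 1) (α a) -
      Ph α π (η k) (N k) (H k) (fun _ => 1) a) 𝒱 (𝓝 0) := by
    have h2 : Tendsto (fun k : ℕ => (2 * ‖a‖) / (H k : ℝ)) 𝒱 (𝓝 0) :=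
      (tendsto_const_div_atTop_nhds_zero_nat (2 * ‖a‖)).comp hH
    refine squeeze_zero_norm (fun k => ?_) h2
    have e1 : Ph α π (η k) (N k) (H k) (fun _ => 1) (α a) - Ph α π (η k) (N k) (H k) (fun _ => 1) a =
        (∑ n ∈ range (N k), (⟪η k n, π ((⇑α)^[n + H k + 1] a) (η k n)⟫_ℂ -
          ⟪η k n, π ((⇑α)^[n + 1] a) (η k n)⟫_ℂ)) / ((N k : ℂ) * H k) := by
      rw [Ph, Ph, AvC, AvC, ← sub_div, ← sum_sub_distrib]
      congr 1
      refine sum_congr rfl fun n _ => ?_
      rw [← tele (fun r => ⟪η k n, π ((⇑α)^[r] a) (η k n)⟫_ℂ) n (H k), ← sum_sub_distrib]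
      refine sum_congr rfl fun m _ => ?_
      rw [Function.iterate_succ_apply]
      simp
    rw [e1, norm_div, norm_mul, Complex.norm_natCast, Complex.norm_natCast]
    have hb : ∀ n m : ℕ, ‖⟪η k n, π ((⇑α)^[m] a) (η k n)⟫_ℂ‖ ≤ ‖a‖ := by
      intro n m
      have := term_le α π (hη k) (g := fun _ => 1) (fun _ => ⟨zero_le_one, le_rfl⟩) a n m
      simpa using this
    have h3 : ‖∑ n ∈ range (N k), (⟪η k n, π ((⇑α)^[n + H k + 1] a) (η k n)⟫_ℂ -
          ⟪η k n, π ((⇑α)^[n + 1] a) (η k n)⟫_ℂ)‖ ≤ N k * (2 * ‖a‖) := by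
      refine (norm_sum_le _ _).trans ?_
      calc _ ≤ ∑ _n ∈ range (N k), 2 * ‖a‖ := by
            refine sum_le_sum fun n _ => (norm_sub_le _ _).trans ?_
            linarith [hb n (n + H k + 1), hb n (n + 1)]
        _ = _ := by rw [sum_const, card_range, nsmul_eq_mul]
    rcases Nat.eq_zero_or_pos (N k) with h0 | h0
    · rw [h0]; simp
      positivity
    rcases Nat.eq_zero_or_pos (H k) with h0' | h0'
    · rw [h0']; simp
    have hNp : (0 : ℝ) < N k := by exact_mod_cast h0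
    have hHp : (0 : ℝ) < H k := by exact_mod_cast h0'
    rw [div_le_div_iff₀ (by positivity) hHp]
    nlinarith
  have h2 := h1.add (h a)
  rw [zero_add] at h2
  exact tendsto_nhds_unique (h (α a)) (h2.congr fun k => by ring)

end fnl

/-- the pattern of length `W` of `h` at `m` -/
noncomputable def pt (h : ℕ → ℂ) (W m : ℕ) : ℕ → ℂ := fun i => if i < W then h (m + i) else 0

theorem pt_finite {h : ℕ → ℂ} (hf : (Set.range h).Finite) (W : ℕ) : (Set.range (pt h W)).Finite := by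
  have h1 : (Set.pi Set.univ fun _ : Fin W => Set.range h).Finite := Set.Finite.pi fun _ => hf
  refine (h1.image (fun c : Fin W → ℂ => fun i : ℕ => if hi : i < W then c ⟨i, hi⟩ else 0)).subset ?_
  rintro _ ⟨m, rfl⟩
  refine ⟨fun i => h (m + i), fun i _ => ⟨_, rfl⟩, ?_⟩
  funext i
  by_cases hi : i < W
  · simp [pt, hi]
  · simp [pt, hi]

/-- null spectrum -/
def NullSp {B : Type*} [CStarAlgebra B] (Z : B) : Prop :=
  volume {t : ℝ | Complex.exp (2 * Real.pi * Complex.I * t) ∈ spectrum ℂ Z} = 0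

/-- rotated unitaries -/
theorem rot {B : Type*} [CStarAlgebra B] {Z : B} (hZ : Z ∈ unitary B) (h0 : NullSp Z) (θ : ℝ) :
    ee θ • Z ∈ unitary B ∧ NullE (spectrum ℂ (ee θ • Z)) := by
  have hs : star (ee θ) * ee θ = 1 := by
    rw [Complex.star_def, mul_comm, Complex.mul_conj, Complex.normSq_eq_norm_sq, norm_ee]; simp
  have hs' : ee θ * star (ee θ) = 1 := by rw [mul_comm, hs]
  refine ⟨⟨?_, ?_⟩, spectrum.isClosed _, ?_⟩
  · rw [star_smul, smul_mul_smul_comm, Unitary.star_mul_self_of_mem hZ, hs, one_smul]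
  · rw [star_smul, smul_mul_smul_comm, Unitary.mul_star_self_of_mem hZ, hs', one_smul]
  · have h1 : {t : ℝ | Complex.exp (2 * Real.pi * Complex.I * t) ∈ spectrum ℂ (ee θ • Z)} =
        (fun t : ℝ => t + (-θ)) ⁻¹' {t : ℝ | Complex.exp (2 * Real.pi * Complex.I * t) ∈ spectrum ℂ Z} := by
      ext t
      show ee t ∈ spectrum ℂ (ee θ • Z) ↔ ee (t + -θ) ∈ spectrum ℂ Z
      have hu : ee θ ≠ 0 := by
        intro h
        have := norm_ee θ
        rw [h, norm_zero] at this
        exact zero_ne_one this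
      have h2 := spectrum.unit_smul_eq_smul Z (Units.mk0 (ee θ) hu)
      have h3 : spectrum ℂ (ee θ • Z) = Units.mk0 (ee θ) hu • spectrum ℂ Z := h2
      rw [h3, Set.mem_smul_set_iff_inv_smul_mem]
      have h4 : (Units.mk0 (ee θ) hu)⁻¹ • ee t = ee (t + -θ) := by
        show (ee θ)⁻¹ * ee t = ee (t + -θ)
        have : ee t = ee θ * ee (t + -θ) := by rw [← ee_add]; congr 1; ring
        rw [this, inv_mul_cancel_left₀ hu]
      rw [h4]
    rw [h1, measure_preimage_add_right]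
    exact h0

end Run7.h896.RE
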