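import Pool.Agent.Run7.h896.RE.Key

/-! The key estimate, assembled. -/

set_option autoImplicit false

open Finset Filter Topology MeasureTheory
open scoped InnerProductSpace ComplexOrder

namespace Run7.h896.RE

open Pool.Agent.H807R2.Dav (ee norm_ee ee_add ee_int ee_pow ee_zero)
open Pool.Agent.W24.Katai (Mul1)
open Pool.Agent.TH823.MRS (ExpoSmall)
open Pool.Agent.W661.Nrm
open Run7.h896.CF (NullE null_window)

variable {A : Type} [CStarAlgebra A]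

/-- relative eigenvectors -/
def RelEig {K : Type} [NormedAddCommGroup K] [InnerProductSpace ℂ K] [CompleteSpace K]
    (π : A →⋆ₐ[ℂ] (K →L[ℂ] K)) (U : K →ₗᵢ[ℂ] K) (y : K) : Prop :=
  ∃ Z : K →L[ℂ] K, Z ∈ unitary (K →L[ℂ] K) ∧ NullSp Z ∧
    (∀ T : K →L[ℂ] K, (∀ a, T * π a = π a * T) → T * Z = Z * T) ∧ ∀ n : ℕ, (⇑U)^[n] y = (Z ^ n) y

/-- the hypothesis on all invariant states -/
def Hyp (α : A →⋆ₐ[ℂ] A) (x : A) : Prop :=
  ∀ (K : Type) [NormedAddCommGroup K] [InnerProductSpace ℂ K] [CompleteSpace K]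
    (π : A →⋆ₐ[ℂ] (K →L[ℂ] K)) (U : K →ₗᵢ[ℂ] K) (ξ : K),
    (∀ a η, U (π a η) = π (α a) (U η)) → U ξ = ξ → (DenseRange fun a => π a ξ) →
    π x ξ ∈ closure (Submodule.span ℂ {y | RelEig π U y} : Set K)

/-- weighted orbit sums -/
noncomputable def Gf (α : A →⋆ₐ[ℂ] A) (x : A) (θ : ℝ) (c : ℕ → ℂ) (W : ℕ) : A :=
  ∑ i ∈ range W, (c i * ee ((i : ℝ) * θ)) • (⇑α)^[i] x

theorem unit_le {K : Type} [NormedAddCommGroup K] [InnerProductSpace ℂ K] [CompleteSpace K]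
    {Z : K →L[ℂ] K} (hZ : Z ∈ unitary (K →L[ℂ] K)) : ‖Z‖ ≤ 1 := by
  have h1 := CStarRing.norm_star_mul_self (x := Z)
  rw [Unitary.star_mul_self_of_mem hZ] at h1
  have h2 : ‖(1 : K →L[ℂ] K)‖ ≤ 1 := ContinuousLinearMap.norm_id_le
  nlinarith [norm_nonneg Z]

theorem pt_le {h : ℕ → ℂ} (hb : ∀ n, ‖h n‖ ≤ 1) (W m i : ℕ) : ‖pt h W m i‖ ≤ 1 := by
  unfold pt
  split_ifs
  · exact hb _
  · simp

/-- the operator polynomials of the patterns -/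
theorem pt_poly {h : ℕ → ℂ} {K : Type} [NormedAddCommGroup K] [InnerProductSpace ℂ K] [CompleteSpace K]
    (Z : K →L[ℂ] K) (θ : ℝ) (W m : ℕ) :
    ∑ i ∈ range W, (pt h W m i * ee ((i : ℝ) * θ)) • Z ^ i =
      ∑ i ∈ range W, h (m + i) • (ee θ • Z) ^ i := by
  refine sum_congr rfl fun i hi => ?_
  rw [pt, if_pos (mem_range.1 hi), smul_pow, ← ee_pow, smul_smul]

theorem key {h : ℕ → ℂ} (hh : Mul1 h) (hE : ExpoSmall h) (hfin : (Set.range h).Finite)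
    (α : A →⋆ₐ[ℂ] A) (x : A) (hx : Hyp α x) {K : Type} [NormedAddCommGroup K] [InnerProductSpace ℂ K]
    [CompleteSpace K] (π : A →⋆ₙₐ[ℂ] (K →L[ℂ] K)) (𝒱 : Ultrafilter ℕ) {η : ℕ → ℕ → K}
    (hη : ∀ k n, ‖η k n‖ ≤ 1) (N H : ℕ → ℕ) (hH : Tendsto H 𝒱 atTop) (hNH : ∀ k, H k ≤ N k)
    (θ : ℝ) (ε : ℝ) (hε : 0 < ε) :
    ∃ W : ℕ, 1 ≤ W ∧ ∀ᶠ k in (𝒱 : Filter ℕ),
      AvR (fun n m => ‖π ((⇑α)^[m] (Gf α x θ (pt h W m) W)) (η k n)‖ ^ 2) (N k) (H k) < ε * W ^ 2 := by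
  classical
  let _ : PartialOrder A := CStarAlgebra.spectralOrder A
  have _ : StarOrderedRing A := CStarAlgebra.spectralOrderedRing A
  obtain ⟨φ, hφ⟩ := exists_lim α π 𝒱 hη N H (g := fun _ => 1) (fun _ => ⟨zero_le_one, le_rfl⟩)
  have hinv : ∀ a, φ (α a) = φ a := lim_inv α π hη hH hφ
  obtain ⟨U, hU1, hU2⟩ := exists_U φ α hinv
  have hv := hx φ.GNS φ.gnsStarAlgHom U (om φ) hU1 hU2 (gns_dense φ)
  have hUio : ∀ (n : ℕ) (a : A), (⇑U)^[n] (io φ a) = io φ ((⇑α)^[n] a) := by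
    intro n
    induction n with
    | zero => intro a; rfl
    | succ n ih =>
      intro a
      rw [Function.iterate_succ_apply, Function.iterate_succ_apply, ← ih]
      congr 1
      rw [io_apply, hU1, hU2]
      rfl
  -- approximation by relative eigenvectors
  obtain ⟨δ1, hδ1, hδ1'⟩ : ∃ δ : ℝ, 0 < δ ∧ 2 * δ ^ 2 ≤ ε / 4 := by
    refine ⟨min 1 (ε / 8), by positivity, ?_⟩
    have h1 : min 1 (ε / 8) ≤ 1 := min_le_left _ _
    have h2 : min 1 (ε / 8) ≤ ε / 8 := min_le_right _ _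
    have h3 : 0 < min 1 (ε / 8) := by positivity
    nlinarith
  obtain ⟨u, hu, hvu⟩ := Metric.mem_closure_iff.1 hv δ1 hδ1
  obtain ⟨J, cf, g0, hsum⟩ := Submodule.mem_span_set'.1 hu
  choose Z hZu hZ0 hZc hZp using fun j => (g0 j).2
  obtain ⟨y, hy⟩ : ∃ y : Fin J → φ.GNS, y = fun j => cf j • (g0 j : φ.GNS) := ⟨_, rfl⟩
  have hyn : ∀ j n, (⇑U)^[n] (y j) = (Z j ^ n) (y j) := by
    intro j n
    have e1 : ∀ (n : ℕ) (c : ℂ) (w : φ.GNS), (⇑U)^[n] (c • w) = c • (⇑U)^[n] w := by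
      intro n c w
      induction n with
      | zero => rfl
      | succ n ih => rw [Function.iterate_succ_apply', ih, map_smul, Function.iterate_succ_apply' (⇑U) n w]
    rw [hy]
    show (⇑U)^[n] (cf j • (g0 j : φ.GNS)) = (Z j ^ n) (cf j • (g0 j : φ.GNS))
    rw [e1, hZp, map_smul]
  have hsum' : u = ∑ j, y j := by rw [hy, ← hsum]
  obtain ⟨δ2, hδ2, hδ2'⟩ : ∃ δ : ℝ, 0 < δ ∧ 4 * (J : ℝ) ^ 2 * δ ^ 2 ≤ ε / 4 := by
    refine ⟨min 1 (ε / (16 * ((J : ℝ) ^ 2 + 1))), by positivity, ?_⟩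
    have h1 : min 1 (ε / (16 * ((J : ℝ) ^ 2 + 1))) ≤ 1 := min_le_left _ _
    have h2 : min 1 (ε / (16 * ((J : ℝ) ^ 2 + 1))) ≤ ε / (16 * ((J : ℝ) ^ 2 + 1)) := min_le_right _ _
    have h3 : 0 < min 1 (ε / (16 * ((J : ℝ) ^ 2 + 1))) := by positivity
    generalize min 1 (ε / (16 * ((J : ℝ) ^ 2 + 1))) = δ at h1 h2 h3
    rw [le_div_iff₀ (by positivity)] at h2
    have h4 : (0 : ℝ) ≤ (J : ℝ) ^ 2 := by positivity
    have h5 : δ ^ 2 ≤ δ := by nlinarith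
    nlinarith
  choose a ha using fun j => (io_dense φ).exists_dist_lt (y j) hδ2
  obtain ⟨S, hS⟩ : ∃ S : ℝ, S = ∑ j, ‖a j‖ ^ 2 := ⟨_, rfl⟩
  have hS0 : 0 ≤ S := by rw [hS]; exact sum_nonneg fun j _ => sq_nonneg _
  obtain ⟨ε', hε', hε''⟩ : ∃ ε' : ℝ, 0 < ε' ∧ 12 * (J : ℝ) * S * ε' ≤ ε / 4 := by
    refine ⟨ε / (48 * (J * S + 1)), by positivity, ?_⟩
    rw [mul_div_assoc', div_le_iff₀ (by positivity)]
    have : 0 ≤ (J : ℝ) * S := by positivity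
    nlinarith
  choose H0 hH0 using fun j => null_window hh hE (rot (hZu j) (hZ0 j) θ).2 ε' hε'
  obtain ⟨W, hW⟩ : ∃ W : ℕ, W = ∑ j, H0 j + 1 := ⟨_, rfl⟩
  have hWj : ∀ j, H0 j ≤ W := fun j => by
    have := Finset.single_le_sum (f := H0) (fun _ _ => Nat.zero_le _) (mem_univ j)
    omega
  have hW1 : 1 ≤ W := by omega
  have hWr : (0 : ℝ) < W := by exact_mod_cast hW1
  refine ⟨W, hW1, ?_⟩
  -- patterns
  obtain ⟨P, hP⟩ : ∃ P : Finset (ℕ → ℂ), ∀ c, c ∈ P ↔ ∃ m, pt h W m = c :=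
    ⟨(pt_finite hfin W).toFinset, fun c => by simp⟩
  obtain ⟨g, hg⟩ : ∃ g : (ℕ → ℂ) → ℕ → ℝ, g = fun c m => if pt h W m = c then (1 : ℝ) else 0 := ⟨_, rfl⟩
  have hg01 : ∀ c m, 0 ≤ g c m ∧ g c m ≤ 1 := by
    intro c m
    rw [hg]
    show 0 ≤ (if pt h W m = c then (1 : ℝ) else 0) ∧ (if pt h W m = c then (1 : ℝ) else 0) ≤ 1
    split_ifs
    · exact ⟨zero_le_one, le_rfl⟩
    · exact ⟨le_rfl, zero_le_one⟩
  have hgs : ∀ (F : (ℕ → ℂ) → ℝ) (m : ℕ), ∑ c ∈ P, g c m * F c = F (pt h W m) := by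
    intro F m
    rw [Finset.sum_eq_single_of_mem (pt h W m) ((hP _).2 ⟨m, rfl⟩)]
    · rw [hg]
      show (if pt h W m = pt h W m then (1 : ℝ) else 0) * F (pt h W m) = _
      rw [if_pos rfl, one_mul]
    · intro c _ hc
      rw [hg]
      show (if pt h W m = c then (1 : ℝ) else 0) * F c = _
      rw [if_neg (Ne.symm hc), zero_mul]
  choose ψ hψ using fun c : ℕ → ℂ => exists_lim α π 𝒱 hη N H (g := g c) (hg01 c)
  have hlφ := fun b => lim_norm α π hφ b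
  have hlψ := fun c b => lim_norm α π (hψ c) b
  have hle : ∀ c b, ‖io (ψ c) b‖ ≤ ‖io φ b‖ := by
    intro c b
    have h1 : ‖io (ψ c) b‖ ^ 2 ≤ ‖io φ b‖ ^ 2 :=
      le_of_tendsto_of_tendsto' (hlψ c b) (hlφ b) fun k => AvR_mono (fun n m => by
        have := (hg01 c m).2
        gcongr) _ _
    exact (sq_le_sq₀ (norm_nonneg _) (norm_nonneg _)).1 h1
  -- sums over the patterns of limits
  have hlim : ∀ (F : (ℕ → ℂ) → ℝ) (b : (ℕ → ℂ) → A), Tendsto (fun k => AvR (fun n m =>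
      F (pt h W m) * ‖π ((⇑α)^[m] (b (pt h W m))) (η k n)‖ ^ 2) (N k) (H k)) 𝒱
      (𝓝 (∑ c ∈ P, F c * ‖io (ψ c) (b c)‖ ^ 2)) := by
    intro F b
    have h1 := tendsto_finsetSum P fun c _ => (hlψ c (b c)).const_mul (F c)
    refine h1.congr fun k => ?_
    rw [← sum_congr rfl fun c _ => AvR_mul (F c) _ (N k) (H k), ← AvR_sum]
    congr 1
    funext n m
    rw [← hgs (fun c => F c * ‖π ((⇑α)^[m] (b c)) (η k n)‖ ^ 2) m]
    refine sum_congr rfl fun c _ => ?_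
    ring
  have hsumψ : ∀ b, ∑ c ∈ P, ‖io (ψ c) b‖ ^ 2 = ‖io φ b‖ ^ 2 := by
    intro b
    have h1 := hlim (fun _ => 1) (fun _ => b)
    simp only [one_mul] at h1
    refine tendsto_nhds_unique h1 ((hlφ b).congr fun k => ?_)
    simp only [one_mul]
  choose R hRc hRn using fun c => exists_S φ (ψ c) (hle c)
  have hR : ∀ v, ∑ c ∈ P, ‖R c v‖ ^ 2 = ‖v‖ ^ 2 := by
    intro v
    refine (io_dense φ).induction_on (p := fun v => ∑ c ∈ P, ‖R c v‖ ^ 2 = ‖v‖ ^ 2) v ?_ ?_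
    · exact isClosed_eq (by fun_prop) (by fun_prop)
    · intro b
      rw [← hsumψ b]
      exact sum_congr rfl fun c _ => by rw [hRn]
  -- the estimate
  have hest := est P R hR W (fun c i => c i * ee ((i : ℝ) * θ)) (fun c hc i => by
      obtain ⟨m, rfl⟩ := (hP c).1 hc
      rw [norm_mul, norm_ee, mul_one]
      exact pt_le hh.1 W m i) U univ y (fun j => io φ (a j)) Z (fun j _ n => hyn j n)
      (fun j _ => unit_le (hZu j)) (fun c _ j _ => hZc j (R c) (hRc c)) (io φ x)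
  have hG : ∀ c : ℕ → ℂ, ∑ i ∈ range W, (c i * ee ((i : ℝ) * θ)) • (⇑U)^[i] (io φ x) =
      io φ (Gf α x θ c W) := by
    intro c
    rw [Gf, map_sum]
    refine sum_congr rfl fun i _ => ?_
    rw [hUio, map_smul]
  simp only [hG, hRn, card_univ, Fintype.card_fin] at hest
  -- the main terms
  have hmain : ∀ j, ∑ c ∈ P, ‖∑ i ∈ range W, (c i * ee ((i : ℝ) * θ)) • Z j ^ i‖ ^ 2 *
      ‖io (ψ c) (a j)‖ ^ 2 ≤ 3 * ε' * W ^ 2 * ‖a j‖ ^ 2 := by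
    intro j
    have h1 := hlim (fun c => ‖∑ i ∈ range W, (c i * ee ((i : ℝ) * θ)) • Z j ^ i‖ ^ 2) (fun _ => a j)
    refine le_of_tendsto h1 ?_
    filter_upwards [hH.eventually_ge_atTop W] with k hk
    have hNk : W ≤ N k := hk.trans (hNH k)
    have hNr : (0 : ℝ) < N k := by exact_mod_cast (by omega : 0 < N k)
    obtain ⟨M, hM⟩ : ∃ M : ℕ → ℝ, M = fun m => ‖∑ i ∈ range W, h (m + i) • (ee θ • Z j) ^ i‖ := ⟨_, rfl⟩
    have hM0 : ∀ m, 0 ≤ M m := fun m => by rw [hM]; exact norm_nonneg _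
    have hMW : ∀ m, M m ≤ W := by
      intro m
      rw [hM]
      refine (norm_sum_le _ _).trans ?_
      calc _ ≤ ∑ _i ∈ range W, (1 : ℝ) := by
            refine sum_le_sum fun i _ => ?_
            rw [norm_smul]
            refine mul_le_one₀ (hh.1 _) (norm_nonneg _) ?_
            exact unit_le (pow_mem (rot (hZu j) (hZ0 j) θ).1 i)
        _ = W := by simp
    have h2 : AvR (fun n m => ‖∑ i ∈ range W, (pt h W m i * ee ((i : ℝ) * θ)) • Z j ^ i‖ ^ 2 *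
        ‖π ((⇑α)^[m] (a j)) (η k n)‖ ^ 2) (N k) (H k) ≤
        AvR (fun _ m => (W * ‖a j‖ ^ 2) * M m) (N k) (H k) := by
      refine AvR_mono (fun n m => ?_) _ _
      rw [pt_poly]
      have e1 : ‖∑ i ∈ range W, h (m + i) • (ee θ • Z j) ^ i‖ = M m := by rw [hM]
      rw [e1]
      have e2 : ‖π ((⇑α)^[m] (a j)) (η k n)‖ ≤ ‖a j‖ := by
        refine (ContinuousLinearMap.le_opNorm _ _).trans ?_
        calc _ ≤ ‖a j‖ * 1 := by
              gcongr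
              · exact (NonUnitalStarAlgHom.norm_apply_le π _).trans (it_norm α m _)
              · exact hη k n
          _ = _ := mul_one _
      calc M m ^ 2 * ‖π ((⇑α)^[m] (a j)) (η k n)‖ ^ 2 ≤ (W * M m) * ‖a j‖ ^ 2 := by
            have e3 : M m ^ 2 ≤ W * M m := by
              rw [pow_two]
              exact mul_le_mul_of_nonneg_right (hMW m) (hM0 m)
            have := hM0 m
            gcongr
        _ = _ := by ring
    refine h2.trans ?_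
    rw [AvR_mul]
    have h3 := avr_shift hM0 (N := N k) (H := H k) (by omega) (by omega)
    have h4 := hH0 j W (hWj j) (N k + H k + 1) (by omega) (φ.GNS →L[ℂ] φ.GNS) (fun _ => ee θ • Z j)
      (fun _ => (rot (hZu j) (hZ0 j) θ).1) (fun _ => subset_rfl)
    have h5 : AvR (fun _ m => M m) (N k) (H k) ≤ 3 * ε' * W := by
      refine h3.trans ?_
      rw [div_le_iff₀ hNr]
      have h6 : ∑ r ∈ range (N k + H k + 1), M r ≤ ε' * W * ((N k + H k + 1 : ℕ) : ℝ) := by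
        rw [hM]; exact h4
      refine h6.trans ?_
      have h7 : ((N k + H k + 1 : ℕ) : ℝ) ≤ 3 * N k := by
        have := hNH k
        exact_mod_cast (by omega : N k + H k + 1 ≤ 3 * N k)
      calc ε' * W * ((N k + H k + 1 : ℕ) : ℝ) ≤ ε' * W * (3 * N k) := by gcongr
        _ = _ := by ring
    calc (W * ‖a j‖ ^ 2) * AvR (fun _ m => M m) (N k) (H k) ≤ (W * ‖a j‖ ^ 2) * (3 * ε' * W) := by gcongr
      _ = _ := by ring
  have htot : ∑ c ∈ P, ‖io (ψ c) (Gf α x θ c W)‖ ^ 2 < ε * W ^ 2 := by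
    refine lt_of_le_of_lt hest ?_
    have h1 : ‖io φ x - ∑ j, y j‖ ^ 2 ≤ δ1 ^ 2 := by
      rw [← hsum']
      have := hvu.le
      rw [dist_eq_norm] at this
      gcongr
      exact this
    have h2 : ∀ j, ‖y j - io φ (a j)‖ ^ 2 ≤ δ2 ^ 2 := by
      intro j
      have := (ha j).le
      rw [dist_eq_norm] at this
      gcongr
    have h3 : ∑ j, (2 * ∑ c ∈ P, ‖∑ i ∈ range W, (c i * ee ((i : ℝ) * θ)) • Z j ^ i‖ ^ 2 *
        ‖io (ψ c) (a j)‖ ^ 2 + 2 * (W : ℝ) ^ 2 * ‖y j - io φ (a j)‖ ^ 2) ≤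
        ∑ j, (6 * ε' * W ^ 2 * ‖a j‖ ^ 2 + 2 * (W : ℝ) ^ 2 * δ2 ^ 2) := by
      refine sum_le_sum fun j _ => ?_
      have h4 := hmain j
      have h5 : 2 * (W : ℝ) ^ 2 * ‖y j - io φ (a j)‖ ^ 2 ≤ 2 * (W : ℝ) ^ 2 * δ2 ^ 2 := by
        have := h2 j
        gcongr
      linarith
    have h4 : ∑ j : Fin J, (6 * ε' * (W : ℝ) ^ 2 * ‖a j‖ ^ 2 + 2 * (W : ℝ) ^ 2 * δ2 ^ 2) =
        6 * ε' * W ^ 2 * S + J * (2 * W ^ 2 * δ2 ^ 2) := by
      rw [sum_add_distrib, ← mul_sum, sum_const, card_univ, Fintype.card_fin, nsmul_eq_mul, hS]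
    rw [h4] at h3
    have h5 : 2 * (J : ℝ) * ∑ j, (2 * ∑ c ∈ P, ‖∑ i ∈ range W, (c i * ee ((i : ℝ) * θ)) • Z j ^ i‖ ^ 2 *
        ‖io (ψ c) (a j)‖ ^ 2 + 2 * (W : ℝ) ^ 2 * ‖y j - io φ (a j)‖ ^ 2) ≤
        2 * J * (6 * ε' * W ^ 2 * S + J * (2 * W ^ 2 * δ2 ^ 2)) := by gcongr
    have h6 : 2 * (J : ℝ) * (6 * ε' * W ^ 2 * S + J * (2 * W ^ 2 * δ2 ^ 2)) =
        (12 * J * S * ε' + 4 * J ^ 2 * δ2 ^ 2) * W ^ 2 := by ring
    have h7 : 2 * (W : ℝ) ^ 2 * ‖io φ x - ∑ j, y j‖ ^ 2 ≤ (2 * δ1 ^ 2) * W ^ 2 := by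
      calc 2 * (W : ℝ) ^ 2 * ‖io φ x - ∑ j, y j‖ ^ 2 ≤ 2 * (W : ℝ) ^ 2 * δ1 ^ 2 := by gcongr
        _ = _ := by ring
    have hW2 : (0 : ℝ) < (W : ℝ) ^ 2 := by positivity
    have h8 : (12 * (J : ℝ) * S * ε' + 4 * (J : ℝ) ^ 2 * δ2 ^ 2) * W ^ 2 ≤ (ε / 4 + ε / 4) * W ^ 2 := by
      gcongr
    have h9 : (2 * δ1 ^ 2) * (W : ℝ) ^ 2 ≤ ε / 4 * W ^ 2 := by gcongr
    have h10 : 0 < ε * (W : ℝ) ^ 2 := by positivity
    linarith
  have hfinal := hlim (fun _ => 1) (fun c => Gf α x θ c W)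
  simp only [one_mul] at hfinal
  exact hfinal.eventually_lt_const htot

end Run7.h896.RE
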