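import Pool.Agent.Run7.h896.RE.Key2

/-! Windows, closed spans, long averages. -/

set_option autoImplicit false

open Finset Filter Topology MeasureTheory
open scoped InnerProductSpace ComplexOrder

namespace Run7.h896.RE

open Pool.Agent.H807R2.Dav (ee norm_ee ee_add ee_int ee_pow ee_zero)
open Pool.Agent.W24.Katai (Mul1)
open Pool.Agent.TH823.MRS (ExpoSmall)
open Run7.h896.CF (win)

variable {A : Type} [CStarAlgebra A]

/-- small windows -/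
def WinSmall (h : ℕ → ℂ) (α : A →⋆ₐ[ℂ] A) (x : A) : Prop :=
  ∀ ε : ℝ, 0 < ε → ∃ H0 : ℕ, ∀ H : ℕ, H0 ≤ H → ∀ N : ℕ, H ≤ N → ∀ θ : ℝ,
    ∑ n ∈ range N, ‖∑ m ∈ Ioc n (n + H), (h m * ee ((m : ℝ) * θ)) • (⇑α)^[m] x‖ ≤ ε * H * N

theorem ee_fract (m : ℕ) (θ : ℝ) : ee ((m : ℝ) * θ) = ee ((m : ℝ) * Int.fract θ) := by
  have h1 : (m : ℝ) * θ = (m : ℝ) * Int.fract θ + ((m * ⌊θ⌋ : ℤ) : ℝ) := by
    have := Int.floor_add_fract θ
    push_cast
    linear_combination (-(m : ℝ)) * this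
  rw [h1, ee_add, ee_int, mul_one]

section one

variable {K : Type} [NormedAddCommGroup K] [InnerProductSpace ℂ K] [CompleteSpace K]

theorem norm_win {h : ℕ → ℂ} (α : A →⋆ₐ[ℂ] A) (π : A →⋆ₙₐ[ℂ] (K →L[ℂ] K)) (x : A) (θ : ℝ) (W m : ℕ) (η : K) :
    ‖∑ i ∈ range W, (h (m + i) * ee (((m + i : ℕ) : ℝ) * θ)) • π ((⇑α)^[m + i] x) η‖ =
      ‖π ((⇑α)^[m] (Gf α x θ (pt h W m) W)) η‖ := by
  have e1 : ∑ i ∈ range W, (h (m + i) * ee (((m + i : ℕ) : ℝ) * θ)) • π ((⇑α)^[m + i] x) η =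
      ee ((m : ℝ) * θ) • π ((⇑α)^[m] (Gf α x θ (pt h W m) W)) η := by
    rw [Gf, it_sum, map_sum, _root_.sum_apply, smul_sum]
    refine sum_congr rfl fun i hi => ?_
    rw [it_smul, map_smul, smul_apply, smul_smul, pt, if_pos (mem_range.1 hi),
      ← Function.iterate_add_apply]
    congr 1
    have : ((m + i : ℕ) : ℝ) * θ = (m : ℝ) * θ + (i : ℝ) * θ := by push_cast; ring
    rw [this, ee_add]
    ring
  rw [e1, norm_smul, norm_ee, one_mul]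

/-- the difference of two frequencies -/
theorem gf_diff {h : ℕ → ℂ} (hb : ∀ n, ‖h n‖ ≤ 1) (α : A →⋆ₐ[ℂ] A) (π : A →⋆ₙₐ[ℂ] (K →L[ℂ] K)) (x : A)
    (θ θ' : ℝ) (W m : ℕ) {η : K} (hη : ‖η‖ ≤ 1) :
    ‖π ((⇑α)^[m] (Gf α x θ (pt h W m) W)) η‖ ≤ ‖π ((⇑α)^[m] (Gf α x θ' (pt h W m) W)) η‖ +
      ‖x‖ * ∑ i ∈ range W, ‖ee ((i : ℝ) * θ) - ee ((i : ℝ) * θ')‖ := by
  have e1 : Gf α x θ (pt h W m) W = Gf α x θ' (pt h W m) W +
      ∑ i ∈ range W, (pt h W m i * (ee ((i : ℝ) * θ) - ee ((i : ℝ) * θ'))) • (⇑α)^[i] x := by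
    rw [Gf, Gf, ← sum_add_distrib]
    refine sum_congr rfl fun i _ => ?_
    rw [← add_smul]
    congr 1
    ring
  rw [e1, it_add, map_add, add_apply]
  refine (norm_add_le _ _).trans (add_le_add le_rfl ?_)
  refine (ContinuousLinearMap.le_opNorm _ _).trans ?_
  have h1 : ‖π ((⇑α)^[m] (∑ i ∈ range W, (pt h W m i * (ee ((i : ℝ) * θ) - ee ((i : ℝ) * θ'))) • (⇑α)^[i] x))‖ ≤
      ‖x‖ * ∑ i ∈ range W, ‖ee ((i : ℝ) * θ) - ee ((i : ℝ) * θ')‖ := by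
    refine (NonUnitalStarAlgHom.norm_apply_le π _).trans ((it_norm α m _).trans ?_)
    refine (norm_sum_le _ _).trans ?_
    rw [mul_sum]
    refine sum_le_sum fun i _ => ?_
    rw [norm_smul, norm_mul]
    calc ‖pt h W m i‖ * ‖ee ((i : ℝ) * θ) - ee ((i : ℝ) * θ')‖ * ‖(⇑α)^[i] x‖ ≤
          1 * ‖ee ((i : ℝ) * θ) - ee ((i : ℝ) * θ')‖ * ‖x‖ := by
          gcongr
          · exact pt_le hb W m i
          · exact it_norm α i x
      _ = _ := by ring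
  calc _ ≤ (‖x‖ * ∑ i ∈ range W, ‖ee ((i : ℝ) * θ) - ee ((i : ℝ) * θ')‖) * 1 := by
        gcongr
    _ = _ := mul_one _

end one

/-- sums over windows -/
theorem win_Ioc {E : Type*} [NormedAddCommGroup E] [NormedSpace ℂ E] {z : ℕ → E} {B : ℝ} (hB : 0 ≤ B)
    (hz : ∀ n, ‖z n‖ ≤ B) (n H W : ℕ) :
    W * ‖∑ m ∈ Ioc n (n + H), z m‖ ≤ ∑ m ∈ Ioc n (n + H), ‖∑ i ∈ range W, z (m + i)‖ + 2 * W ^ 2 * B := by
  have e1 : ∀ f : ℕ → E, ∑ m ∈ Ioc n (n + H), f m = ∑ i ∈ range H, f (n + 1 + i) := by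
    intro f
    have : Ioc n (n + H) = Ico (n + 1) (n + 1 + H) := by ext r; simp only [mem_Ioc, mem_Ico]; omega
    rw [this, sum_Ico_eq_sum_range, Nat.add_sub_cancel_left]
  have e2 : ∀ f : ℕ → ℝ, ∑ m ∈ Ioc n (n + H), f m = ∑ i ∈ range H, f (n + 1 + i) := by
    intro f
    have : Ioc n (n + H) = Ico (n + 1) (n + 1 + H) := by ext r; simp only [mem_Ioc, mem_Ico]; omega
    rw [this, sum_Ico_eq_sum_range, Nat.add_sub_cancel_left]
  rw [e1, e2]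
  have h1 := win (y := fun i => z (n + 1 + i)) hB (fun i => hz _) H W
  refine h1.trans (le_of_eq ?_)
  congr 1
  refine sum_congr rfl fun j _ => ?_
  congr 1
  refine sum_congr rfl fun i _ => ?_
  rw [add_assoc (n + 1) j i]

/-- **windows** -/
theorem windows {h : ℕ → ℂ} (hh : Mul1 h) (hE : ExpoSmall h) (hfin : (Set.range h).Finite)
    (α : A →⋆ₐ[ℂ] A) (x : A) (hx : Hyp α x) : WinSmall h α x := by
  intro ε hε
  by_contra hcon
  have hcon' : ∀ k : ℕ, ∃ (H N : ℕ) (θ : ℝ), k + 1 ≤ H ∧ H ≤ N ∧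
      ε * H * N < ∑ n ∈ range N, ‖∑ m ∈ Ioc n (n + H), (h m * ee ((m : ℝ) * θ)) • (⇑α)^[m] x‖ := by
    intro k
    by_contra h1
    apply hcon
    refine ⟨k + 1, fun H hH N hN θ => ?_⟩
    by_contra h2
    exact h1 ⟨H, N, θ, hH, hN, not_le.1 h2⟩
  choose H N θ hH1 hNH hbig using hcon'
  obtain ⟨K, _, _, _, π, hπ⟩ := Pool.Agent.R296.SM.exists_faithful A
  -- vectors
  have hvec : ∀ k n : ℕ, ∃ η : K, ‖η‖ ≤ 1 ∧
      ‖∑ m ∈ Ioc n (n + H k), (h m * ee ((m : ℝ) * θ k)) • (⇑α)^[m] x‖ - ε / 4 * H k ≤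
        ‖π (∑ m ∈ Ioc n (n + H k), (h m * ee ((m : ℝ) * θ k)) • (⇑α)^[m] x) η‖ := by
    intro k n
    have hHk : (0 : ℝ) < H k := by
      have := hH1 k
      exact_mod_cast (by omega : 0 < H k)
    obtain ⟨S, hS⟩ : ∃ S : A, S = ∑ m ∈ Ioc n (n + H k), (h m * ee ((m : ℝ) * θ k)) • (⇑α)^[m] x := ⟨_, rfl⟩
    rw [← hS]
    have h1 : ‖S‖ - ε / 4 * H k < ‖π S‖ := by
      rw [hπ]
      have : 0 < ε / 4 * H k := by positivity
      linarith
    obtain ⟨η, hη1, hη2⟩ := (π S).exists_lt_apply_of_lt_opNorm h1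
    exact ⟨η, hη1.le, hη2.le⟩
  choose η hη hηS using hvec
  obtain ⟨𝒱, h𝒱⟩ : ∃ 𝒱 : Ultrafilter ℕ, (𝒱 : Filter ℕ) ≤ atTop := Ultrafilter.exists_le atTop
  have hHt : Tendsto H 𝒱 atTop :=
    (tendsto_atTop_mono hH1 (tendsto_add_atTop_nat 1)).mono_left h𝒱
  -- the limit frequency
  obtain ⟨t, ht⟩ : ∃ t : ℝ, Tendsto (fun k => Int.fract (θ k)) 𝒱 (𝓝 t) := by
    have h1 : IsCompact (Set.Icc (0 : ℝ) 1) := isCompact_Icc
    obtain ⟨l, -, hl⟩ := h1.ultrafilter_le_nhds (𝒱.map fun k => Int.fract (θ k)) (by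
      rw [Filter.le_principal_iff]
      have h2 : ∀ᶠ k in (𝒱 : Filter ℕ), Int.fract (θ k) ∈ Set.Icc (0 : ℝ) 1 :=
        Filter.Eventually.of_forall fun k => ⟨Int.fract_nonneg _, (Int.fract_lt_one _).le⟩
      exact h2)
    exact ⟨l, hl⟩
  obtain ⟨W, hW1, hW2⟩ := key hh hE hfin α x hx π 𝒱 hη N H hHt hNH t (ε ^ 2 / 16) (by positivity)
  have hWr : (0 : ℝ) < W := by exact_mod_cast hW1
  -- the frequencies are close to the limit
  have hτ : Tendsto (fun k => ‖x‖ * ∑ i ∈ range W, ‖ee ((i : ℝ) * θ k) - ee ((i : ℝ) * t)‖) 𝒱 (𝓝 0) := by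
    have h1 : ∀ i ∈ range W, Tendsto (fun k => ‖ee ((i : ℝ) * θ k) - ee ((i : ℝ) * t)‖) 𝒱 (𝓝 0) := by
      intro i _
      have h2 : Continuous fun s : ℝ => ‖ee ((i : ℝ) * s) - ee ((i : ℝ) * t)‖ := by
        unfold ee
        fun_prop
      have h3 := (h2.tendsto t).comp ht
      simp only [sub_self, norm_zero] at h3
      refine h3.congr fun k => ?_
      rw [Function.comp_apply, ← ee_fract]
    have h2 := (tendsto_finsetSum (range W) h1).const_mul ‖x‖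
    simpa using h2
  have hev1 := hτ.eventually_lt_const (show (0 : ℝ) < ε * W / 8 by positivity)
  obtain ⟨H1, hH1'⟩ := exists_nat_ge (8 * W * ‖x‖ / ε)
  obtain ⟨k, ⟨hk1, hk2⟩, hk3⟩ := ((hW2.and hev1).and (hHt.eventually_ge_atTop H1)).exists
  have hHk : (0 : ℝ) < H k := by
    have := hH1 k
    exact_mod_cast (by omega : 0 < H k)
  have hNk : (0 : ℝ) < N k := by
    have := hH1 k
    have := hNH k
    exact_mod_cast (by omega : 0 < N k)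
  -- the lower bound
  have hz : ∀ n m : ℕ, ‖(h m * ee ((m : ℝ) * θ k)) • π ((⇑α)^[m] x) (η k n)‖ ≤ ‖x‖ := by
    intro n m
    rw [norm_smul, norm_mul, norm_ee, mul_one]
    calc ‖h m‖ * ‖π ((⇑α)^[m] x) (η k n)‖ ≤ 1 * (‖x‖ * 1) := by
          gcongr
          · exact hh.1 m
          · refine (ContinuousLinearMap.le_opNorm _ _).trans ?_
            gcongr
            · exact (NonUnitalStarAlgHom.norm_apply_le π _).trans (it_norm α m x)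
            · exact hη k n
      _ = _ := by ring
  have hlow : ∀ n ∈ range (N k), W * (‖∑ m ∈ Ioc n (n + H k), (h m * ee ((m : ℝ) * θ k)) • (⇑α)^[m] x‖ -
      ε / 4 * H k) ≤ ∑ m ∈ Ioc n (n + H k), (‖π ((⇑α)^[m] (Gf α x t (pt h W m) W)) (η k n)‖ + ε * W / 8) +
        2 * W ^ 2 * ‖x‖ := by
    intro n _
    have h1 := win_Ioc (norm_nonneg x) (hz n) n (H k) W
    have h2 : ‖π (∑ m ∈ Ioc n (n + H k), (h m * ee ((m : ℝ) * θ k)) • (⇑α)^[m] x) (η k n)‖ =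
        ‖∑ m ∈ Ioc n (n + H k), (h m * ee ((m : ℝ) * θ k)) • π ((⇑α)^[m] x) (η k n)‖ := by
      congr 1
      rw [map_sum, _root_.sum_apply]
      exact sum_congr rfl fun m _ => by rw [map_smul]; rfl
    have h3 := hηS k n
    rw [h2] at h3
    have h4 : ∑ m ∈ Ioc n (n + H k), ‖∑ i ∈ range W, (h (m + i) * ee (((m + i : ℕ) : ℝ) * θ k)) •
        π ((⇑α)^[m + i] x) (η k n)‖ ≤
        ∑ m ∈ Ioc n (n + H k), (‖π ((⇑α)^[m] (Gf α x t (pt h W m) W)) (η k n)‖ + ε * W / 8) := by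
      refine sum_le_sum fun m _ => ?_
      rw [norm_win]
      refine (gf_diff hh.1 α π x (θ k) t W m (hη k n)).trans ?_
      gcongr
    calc W * (‖∑ m ∈ Ioc n (n + H k), (h m * ee ((m : ℝ) * θ k)) • (⇑α)^[m] x‖ - ε / 4 * H k) ≤
          W * ‖∑ m ∈ Ioc n (n + H k), (h m * ee ((m : ℝ) * θ k)) • π ((⇑α)^[m] x) (η k n)‖ := by gcongr
      _ ≤ _ := h1
      _ ≤ _ := by gcongr
  have hsum := sum_le_sum hlow
  rw [← mul_sum, sum_sub_distrib, sum_const, card_range, nsmul_eq_mul, sum_add_distrib, sum_const,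
    card_range, nsmul_eq_mul] at hsum
  have e1 : ∑ n ∈ range (N k), ∑ m ∈ Ioc n (n + H k),
      (‖π ((⇑α)^[m] (Gf α x t (pt h W m) W)) (η k n)‖ + ε * W / 8) =
      (AvR (fun n m => ‖π ((⇑α)^[m] (Gf α x t (pt h W m) W)) (η k n)‖) (N k) (H k) + ε * W / 8) *
        (N k * H k) := by
    rw [AvR, add_mul, div_mul_cancel₀ _ (by positivity)]
    simp only [sum_add_distrib, sum_const, Nat.card_Ioc, Nat.add_sub_cancel_left, card_range, nsmul_eq_mul]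
    ring
  rw [e1] at hsum
  have hbk := hbig k
  have h7 : 8 * W * ‖x‖ ≤ ε * H k := by
    have : 8 * W * ‖x‖ / ε ≤ H k := hH1'.trans (by exact_mod_cast hk3)
    rw [div_le_iff₀ hε] at this
    linarith
  have h8 := AvR_sq (f := fun n m => ‖π ((⇑α)^[m] (Gf α x t (pt h W m) W)) (η k n)‖) (N k) (H k)
  have h9 : 0 ≤ AvR (fun n m => ‖π ((⇑α)^[m] (Gf α x t (pt h W m) W)) (η k n)‖) (N k) (H k) :=
    AvR_nonneg (fun n m => norm_nonneg _) _ _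
  generalize AvR (fun n m => ‖π ((⇑α)^[m] (Gf α x t (pt h W m) W)) (η k n)‖) (N k) (H k) = Q at hsum h8 h9
  have h10 : Q ^ 2 < (ε * W / 4) ^ 2 := lt_of_le_of_lt h8 (lt_of_lt_of_le hk1 (le_of_eq (by ring)))
  have h11 : Q < ε * W / 4 := lt_of_pow_lt_pow_left₀ 2 (by positivity) h10
  have hNHp : (0 : ℝ) < (N k : ℝ) * H k := by positivity
  have h12 : (N k : ℝ) * (2 * W ^ 2 * ‖x‖) ≤ ε * W / 4 * (N k * H k) := by
    have : (N k : ℝ) * (2 * W ^ 2 * ‖x‖) = (N k * W / 4) * (8 * W * ‖x‖) := by ring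
    rw [this]
    calc (N k * W / 4 : ℝ) * (8 * W * ‖x‖) ≤ (N k * W / 4) * (ε * H k) := by gcongr
      _ = _ := by ring
  have h13 : (Q + ε * W / 8) * ((N k : ℝ) * H k) ≤ (3 * ε * W / 8) * (N k * H k) := by
    have : Q + ε * W / 8 ≤ 3 * ε * W / 8 := by linarith
    gcongr
  have h14 : W * (ε * H k * N k - N k * (ε / 4 * H k)) < W * (∑ n ∈ range (N k),
      ‖∑ m ∈ Ioc n (n + H k), (h m * ee ((m : ℝ) * θ k)) • (⇑α)^[m] x‖ - N k * (ε / 4 * H k)) := by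
    gcongr
  have h15 : W * (ε * H k * N k - N k * (ε / 4 * H k)) = 3 * ε * W / 4 * (N k * H k) := by ring
  have h16 : 0 < ε * W * (N k * H k) := by positivity
  nlinarith

end Run7.h896.RE
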