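import Pool.Agent.Run7.h896.RE.Main
import Pool.Agent.Run7.h172.Nls.Sup

/-! Long averages. -/

set_option autoImplicit false

open Finset Filter Topology MeasureTheory
open scoped InnerProductSpace ComplexOrder

namespace Run7.h896.RE

open Pool.Agent.H807R2.Dav (ee norm_ee ee_add ee_int ee_pow ee_zero)
open Pool.Agent.W24.Katai (Mul1)
open Pool.Agent.TH823.MRS (ExpoSmall)
open Run7.h896.CF (win)

variable {A : Type} [CStarAlgebra A]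

/-- small long averages -/
def LongSmall (h : ℕ → ℂ) (α : A →⋆ₐ[ℂ] A) (x : A) : Prop :=
  ∀ ε : ℝ, 0 < ε → ∃ N0 : ℕ, ∀ N : ℕ, N0 ≤ N → ∀ θ : ℝ,
    ‖∑ m ∈ Icc 1 N, (h m * ee ((m : ℝ) * θ)) • (⇑α)^[m] x‖ ≤ ε * N

theorem long_of_win {h : ℕ → ℂ} (hb : ∀ n, ‖h n‖ ≤ 1) (α : A →⋆ₐ[ℂ] A) (x : A) (hx : WinSmall h α x) :
    LongSmall h α x := by
  intro ε hε
  obtain ⟨H0, hH0⟩ := hx (ε / 2) (by positivity)
  obtain ⟨H, hHdef⟩ : ∃ H, H = max H0 1 := ⟨_, rfl⟩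
  have hH : H0 ≤ H := by omega
  have hH1 : 1 ≤ H := by omega
  obtain ⟨N1, hN1⟩ := exists_nat_ge (4 * H * ‖x‖ / ε)
  refine ⟨max H N1, fun N hN θ => ?_⟩
  have hHN : H ≤ N := (le_max_left _ _).trans hN
  have hNN : (N1 : ℝ) ≤ N := by exact_mod_cast (le_max_right _ _).trans hN
  have hHr : (0 : ℝ) < H := by exact_mod_cast hH1
  obtain ⟨y, hy⟩ : ∃ y : ℕ → A, y = fun m => (h (m + 1) * ee (((m + 1 : ℕ) : ℝ) * θ)) • (⇑α)^[m + 1] x := ⟨_, rfl⟩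
  have hyb : ∀ n, ‖y n‖ ≤ ‖x‖ := by
    intro n
    rw [hy]
    simp only
    rw [norm_smul, norm_mul, norm_ee, mul_one]
    calc ‖h (n + 1)‖ * ‖(⇑α)^[n + 1] x‖ ≤ 1 * ‖x‖ := by
          gcongr
          · exact hb _
          · exact it_norm α _ x
      _ = _ := one_mul _
  have h1 := win (norm_nonneg x) hyb N H
  have e1 : ∑ m ∈ Icc 1 N, (h m * ee ((m : ℝ) * θ)) • (⇑α)^[m] x = ∑ n ∈ range N, y n := by
    have : Icc 1 N = Ico 1 (1 + N) := by ext r; simp only [mem_Icc, mem_Ico]; omega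
    rw [this, sum_Ico_eq_sum_range, Nat.add_sub_cancel_left, hy]
    refine sum_congr rfl fun i _ => ?_
    rw [add_comm 1 i]
  have e2 : ∀ n, ∑ i ∈ range H, y (n + i) = ∑ m ∈ Ioc n (n + H), (h m * ee ((m : ℝ) * θ)) • (⇑α)^[m] x := by
    intro n
    have : Ioc n (n + H) = Ico (n + 1) (n + 1 + H) := by ext r; simp only [mem_Ioc, mem_Ico]; omega
    rw [this, sum_Ico_eq_sum_range, Nat.add_sub_cancel_left, hy]
    refine sum_congr rfl fun i _ => ?_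
    rw [show n + 1 + i = n + i + 1 by omega]
  rw [e1]
  simp only [e2] at h1
  have h2 := hH0 H hH N hHN θ
  have h3 : 4 * H * ‖x‖ ≤ ε * N := by
    have : 4 * H * ‖x‖ / ε ≤ N := hN1.trans hNN
    rw [div_le_iff₀ hε] at this
    linarith
  have h4 : (H : ℝ) * ‖∑ n ∈ range N, y n‖ ≤ H * (ε * N) := by
    calc (H : ℝ) * ‖∑ n ∈ range N, y n‖ ≤ _ := h1
      _ ≤ ε / 2 * H * N + 2 * H ^ 2 * ‖x‖ := by gcongr
      _ = ε / 2 * H * N + H / 2 * (4 * H * ‖x‖) := by ring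
      _ ≤ ε / 2 * H * N + H / 2 * (ε * N) := by gcongr
      _ = _ := by ring
  exact le_of_mul_le_mul_left h4 hHr

theorem func_of_long {h : ℕ → ℂ} (α : A →⋆ₐ[ℂ] A) (x : A) (hx : LongSmall h α x) (ρ : A →L[ℂ] ℂ) :
    Tendsto (fun N : ℕ => (1 / (N : ℂ)) * ∑ n ∈ Icc 1 N, h n * ρ ((⇑α)^[n] x)) atTop (𝓝 0) := by
  rw [Metric.tendsto_atTop]
  intro ε hε
  obtain ⟨N0, hN0⟩ := hx (ε / (2 * (‖ρ‖ + 1))) (by positivity)
  refine ⟨max N0 1, fun N hN => ?_⟩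
  have h1 := hN0 N ((le_max_left _ _).trans hN) 0
  have hNr : (0 : ℝ) < N := by exact_mod_cast (le_max_right _ _).trans hN
  rw [dist_zero_right, norm_mul, norm_div, norm_one, Complex.norm_natCast]
  have e1 : ∑ n ∈ Icc 1 N, h n * ρ ((⇑α)^[n] x) =
      ρ (∑ m ∈ Icc 1 N, (h m * ee ((m : ℝ) * 0)) • (⇑α)^[m] x) := by
    rw [map_sum]
    refine sum_congr rfl fun m _ => ?_
    rw [mul_zero, ee_zero, mul_one, map_smul, smul_eq_mul]
  rw [e1]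
  have h2 : ‖ρ (∑ m ∈ Icc 1 N, (h m * ee ((m : ℝ) * 0)) • (⇑α)^[m] x)‖ ≤
      ‖ρ‖ * (ε / (2 * (‖ρ‖ + 1)) * N) := (ρ.le_opNorm _).trans (by gcongr)
  have h3 : ‖ρ‖ * (ε / (2 * (‖ρ‖ + 1)) * N) ≤ ε / 2 * N := by
    have : ‖ρ‖ * (ε / (2 * (‖ρ‖ + 1))) ≤ ε / 2 := by
      rw [mul_div_assoc', div_le_iff₀ (by positivity)]
      nlinarith [norm_nonneg ρ]
    calc ‖ρ‖ * (ε / (2 * (‖ρ‖ + 1)) * N) = (‖ρ‖ * (ε / (2 * (‖ρ‖ + 1)))) * N := by ring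
      _ ≤ _ := by gcongr
  calc 1 / (N : ℝ) * ‖ρ (∑ m ∈ Icc 1 N, (h m * ee ((m : ℝ) * 0)) • (⇑α)^[m] x)‖ ≤ 1 / (N : ℝ) * (ε / 2 * N) := by
        gcongr
        exact h2.trans h3
    _ = ε / 2 := by field_simp
    _ < ε := by linarith

theorem mu_finite : (Set.range fun n : ℕ => ((ArithmeticFunction.moebius n : ℤ) : ℂ)).Finite := by
  refine Set.Finite.subset (s := {0, 1, -1}) (by simp) ?_
  rintro _ ⟨n, rfl⟩
  rcases ArithmeticFunction.moebius_eq_or n with h | h | h <;> simp [h]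

theorem lam_finite : (Set.range fun n : ℕ => (-1 : ℂ) ^ ArithmeticFunction.cardFactors n).Finite := by
  refine Set.Finite.subset (s := {1, -1}) (by simp) ?_
  rintro _ ⟨n, rfl⟩
  rcases neg_one_pow_eq_or ℂ (ArithmeticFunction.cardFactors n) with h | h
  · simp [h]
  · simp [h]

end Run7.h896.RE
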